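import Pool.Agent.Lib.MP_a01f70_lc.GT.MainT

namespace Pool.Agent.Results.MP_a01f70_lc.BoundedAllOdd

open Pool.Agent.Lib.MP_a01f70_lc

/-- For every odd `n`, every almost bent exponent is Gold, Kasami, or lies in one of boundedly many
cyclotomic classes of a bounded shape. -/
theorem result :
    ∃ C : ℕ, ∀ n : ℕ, Odd n →
      ∃ E : Finset ℕ, E.card ≤ C ∧
        (∀ e ∈ E, ∃ (a M : ℕ) (P Q : Multiset ℕ), 0 < a ∧ a ≤ C ∧ 0 < M ∧ M ≤ C ∧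
          (P + Q).card ≤ C ∧ (∀ s ∈ P + Q, ∃ b : ℤ, |b| ≤ C ∧ (M : ℤ) * s ≡ b [ZMOD n]) ∧
          (a : ℤ) * e ≡ (P.map fun s => (2 : ℤ) ^ s).sum - (Q.map fun s => (2 : ℤ) ^ s).sum
            [ZMOD 2 ^ n - 1]) ∧
        ∀ d : ℕ, 1 ≤ d → d ≤ 2 ^ n - 2 →
          (∀ u w : GaloisField 2 n, u ≠ 0 →
            ((∑ᶠ x : GaloisField 2 n,
                (-1 : ℤ) ^ ((Algebra.trace (ZMod 2) (GaloisField 2 n) (u * x ^ d + w * x)).val)) = 0 ∨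
             (∑ᶠ x : GaloisField 2 n,
                (-1 : ℤ) ^ ((Algebra.trace (ZMod 2) (GaloisField 2 n) (u * x ^ d + w * x)).val)) = 2 ^ ((n + 1) / 2) ∨
             (∑ᶠ x : GaloisField 2 n,
                (-1 : ℤ) ^ ((Algebra.trace (ZMod 2) (GaloisField 2 n) (u * x ^ d + w * x)).val)) = -(2 ^ ((n + 1) / 2)))) →
          (∃ e j : ℕ,
            ((∃ k : ℕ, Nat.Coprime n k ∧ e = 2 ^ k + 1) ∨
             (∃ k : ℕ, Nat.Coprime n k ∧ e = 2 ^ (2 * k) - 2 ^ k + 1)) ∧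
            (d ≡ 2 ^ j * e [MOD 2 ^ n - 1] ∨ d * e ≡ 2 ^ j [MOD 2 ^ n - 1])) ∨
          ∃ e ∈ E, ∃ i : ℕ, d ≡ 2 ^ i * e [MOD 2 ^ n - 1] := by
  obtain ⟨C, hC⟩ := Pool.Agent.GT.final
  refine ⟨C, fun n hn => ?_⟩
  obtain ⟨E, h1, h2, h3⟩ := hC n hn
  refine ⟨E, h1, h2, fun d hd hd' hab => ?_⟩
  have := Fintype.ofFinite (GaloisField 2 n)
  have hc : Fintype.card (GaloisField 2 n) = 2 ^ n := by
    rw [← Nat.card_eq_fintype_card, GaloisField.card 2 n hn.pos.ne']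
  refine h3 (GaloisField 2 n) hc d hd hd' fun u w hu => ?_
  have := hab u w hu
  rw [finsum_eq_sum_of_fintype] at this
  exact this

end Pool.Agent.Results.MP_a01f70_lc.BoundedAllOdd
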