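import Pool.Agent.Lib.MP_a01f70_lc.Main
import Pool.Agent.Lib.MP_a01f70_lc.QQ.Main

namespace Pool.Agent.Results.MP_a01f70_lc.Cubic

open Pool.Agent.Lib.MP_a01f70_lc

/-- Almost bent power maps whose exponent is equivalent to a sum of three powers of two. -/
theorem result :
    ∀ n : ℕ, Odd n → ∀ d : ℕ, 1 ≤ d →
      (∃ r s t i : ℕ, d ≡ 2 ^ r + 2 ^ s + 2 ^ t [MOD 2 ^ n - 1] ∨
        d * (2 ^ r + 2 ^ s + 2 ^ t) ≡ 2 ^ i [MOD 2 ^ n - 1]) →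
      (∀ a b : GaloisField 2 n, a ≠ 0 →
        ((∑ᶠ x : GaloisField 2 n,
            (-1 : ℤ) ^ ((Algebra.trace (ZMod 2) (GaloisField 2 n) (a * x ^ d + b * x)).val)) = 0 ∨
         (∑ᶠ x : GaloisField 2 n,
            (-1 : ℤ) ^ ((Algebra.trace (ZMod 2) (GaloisField 2 n) (a * x ^ d + b * x)).val)) = 2 ^ ((n + 1) / 2) ∨
         (∑ᶠ x : GaloisField 2 n,
            (-1 : ℤ) ^ ((Algebra.trace (ZMod 2) (GaloisField 2 n) (a * x ^ d + b * x)).val)) = -(2 ^ ((n + 1) / 2)))) →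
      ∃ e i : ℕ,
        ((∃ k : ℕ, Nat.Coprime n k ∧ e = 2 ^ k + 1) ∨
          (∃ k : ℕ, Nat.Coprime n k ∧ e = 2 ^ (2 * k) - 2 ^ k + 1) ∨
          e = 2 ^ ((n - 1) / 2) + 3 ∨ e = 2 ^ ((n + 3) / 2) + 3) ∧
        (d ≡ 2 ^ i * e [MOD 2 ^ n - 1] ∨ d * e ≡ 2 ^ i [MOD 2 ^ n - 1]) := by
  intro n hn d hd ⟨r, s, t, i, h⟩ hab
  have hn0 : n ≠ 0 := by rintro rfl; exact absurd hn (by decide)
  have := Fintype.ofFinite (GaloisField 2 n)
  have hc : Fintype.card (GaloisField 2 n) = 2 ^ n := by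
    rw [← Nat.card_eq_fintype_card, GaloisField.card 2 n hn0]
  have hAB : ABF (GaloisField 2 n) n d := fun a b ha => by
    have := hab a b ha
    rw [finsum_eq_sum_of_fintype] at this
    exact this
  have hN : ¬ NAPN (GaloisField 2 n) d := fun h => not_ab_of_napn hn hc h hAB
  obtain ⟨e, j, he, hj⟩ := main (F := GaloisField 2 n) hn hc hd h hAB
  rcases he with he | he | he | he | he
  · exact ⟨e, j, Or.inl he, hj⟩
  · exact ⟨e, j, Or.inr (Or.inl ⟨2, Nat.coprime_two_right.mpr hn, he⟩), hj⟩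
  · exact ⟨e, j, Or.inr (Or.inr (Or.inl he)), hj⟩
  · subst he
    have key : ∃ a b i : ℕ, d * (2 ^ b + 1) ≡ 2 ^ i * (2 ^ a + 1) [MOD 2 ^ n - 1] := by
      rcases hj with hj | hj
      · exact ⟨5, 1, j, by simpa [mul_assoc] using hj.mul_right 3⟩
      · exact ⟨1, 5, j, by simpa [mul_assoc] using hj.mul_right 3⟩
    obtain ⟨a, b, i, key⟩ := key
    obtain ⟨e, j, he, hj⟩ := QQ.main_napn hn hc hd key hN
    exact ⟨e, j, he.imp id Or.inl, hj⟩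
  · exact ⟨e, j, Or.inr (Or.inr (Or.inr he)), hj⟩

end Pool.Agent.Results.MP_a01f70_lc.Cubic
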