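import Pool.Agent.Lib.MP_a01f70_lc.QQ.Main

namespace Pool.Agent.Results.MP_a01f70_lc.QuadraticQuotient

open Pool.Agent.Lib.MP_a01f70_lc Pool.Agent.Lib.MP_a01f70_lc.QQ

/-- Almost bent or APN power maps whose exponent is a quotient of two quadratic exponents. -/
theorem result :
    ∀ n : ℕ, Odd n → ∀ d a b i : ℕ, 1 ≤ d →
      d * (2 ^ b + 1) ≡ 2 ^ i * (2 ^ a + 1) [MOD 2 ^ n - 1] →
      ((∀ u w : GaloisField 2 n, u ≠ 0 →
          Set.ncard {x : GaloisField 2 n | (x + u) ^ d + x ^ d = w} ≤ 2) ∨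
       (∀ u w : GaloisField 2 n, u ≠ 0 →
        ((∑ᶠ x : GaloisField 2 n,
            (-1 : ℤ) ^ ((Algebra.trace (ZMod 2) (GaloisField 2 n) (u * x ^ d + w * x)).val)) = 0 ∨
         (∑ᶠ x : GaloisField 2 n,
            (-1 : ℤ) ^ ((Algebra.trace (ZMod 2) (GaloisField 2 n) (u * x ^ d + w * x)).val)) = 2 ^ ((n + 1) / 2) ∨
         (∑ᶠ x : GaloisField 2 n,
            (-1 : ℤ) ^ ((Algebra.trace (ZMod 2) (GaloisField 2 n) (u * x ^ d + w * x)).val)) = -(2 ^ ((n + 1) / 2))))) →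
      ∃ e j : ℕ,
        ((∃ k : ℕ, Nat.Coprime n k ∧ e = 2 ^ k + 1) ∨
         (∃ k : ℕ, Nat.Coprime n k ∧ e = 2 ^ (2 * k) - 2 ^ k + 1)) ∧
        (d ≡ 2 ^ j * e [MOD 2 ^ n - 1] ∨ d * e ≡ 2 ^ j [MOD 2 ^ n - 1]) := by
  intro n hn d a b i hd h hab
  have hn0 : n ≠ 0 := by rintro rfl; exact absurd hn (by decide)
  have := Fintype.ofFinite (GaloisField 2 n)
  have hc : Fintype.card (GaloisField 2 n) = 2 ^ n := by
    rw [← Nat.card_eq_fintype_card, GaloisField.card 2 n hn0]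
  refine main_napn (F := GaloisField 2 n) hn hc hd h fun hN => ?_
  rcases hab with hab | hab
  · exact not_napn_of_apn hab hN
  · refine not_ab_of_napn hn hc hN fun u w hu => ?_
    have := hab u w hu
    rw [finsum_eq_sum_of_fintype] at this
    exact this

end Pool.Agent.Results.MP_a01f70_lc.QuadraticQuotient
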